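import Pool.Agent.R962.KPP.Fin

/-!
# MP_97d5d8_an: the converse of the asymptotic planarity criterion fails for connected supports

Paper proof: helper254 (simplified here). For `N = 2`, `f(s) = s(1-s)` there is a closed connected
set `U` (the complement of a slowly opening horn) satisfying (D) such that every element of `Ω(u)`
is one-dimensional, although (B) fails. The solution `u` is the bounded solution in the Duhamel
sense; it exists and is unique.
-/

namespace Pool.Agent.Results.MP_97d5d8_an.SlowHorn

open Pool.Agent.R962.KPP

/-- **The converse of the asymptotic planarity criterion fails for connected supports**: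
for `N = 2` and the Fisher-KPP nonlinearity `f(s) = s(1-s)` there is a connected closed set
`U ⊂ ℝ²` satisfying (D), for which the solution with initial datum `1_U` exists, is unique and
has asymptotic one-dimensional symmetry, but (B) fails. -/
theorem result : IsKPP (fun s : ℝ => s * (1 - s)) ∧
    ∃ U : Set (EN 2), IsClosed U ∧ IsConnected U ∧ CondD U ∧
      (∃ u, IsSol 2 (fun s : ℝ => s * (1 - s)) U u) ∧
      (∀ u v, IsSol 2 (fun s : ℝ => s * (1 - s)) U u → IsSol 2 (fun s : ℝ => s * (1 - s)) U v →
        ∀ t, 0 ≤ t → u t = v t) ∧
      (∀ u, IsSol 2 (fun s : ℝ => s * (1 - s)) U u → ∀ ψ ∈ Omega u, OneDim ψ) ∧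
      ¬ CondB U :=
  ⟨logistic_kpp, UU, UU_closed, UU_connected, UU_condD, exists_sol,
    fun _ _ hu hv t ht => sol_unique hu hv t ht, fun _ hu => omega_oneDim hu, UU_not_condB⟩

end Pool.Agent.Results.MP_97d5d8_an.SlowHorn
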